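import Pool.Agent.Helper16.BZ.Stmts

set_option autoImplicit false

open Finset Filter MeasureTheory Topology
open scoped ComplexConjugate InnerProductSpace

namespace Pool.Agent.Helper16.BZ

open Pool.Agent.Helper16.MD (MS PB Am RW Rich)

theorem cnt2_bd (r : ℕ) (A : Matrix (Fin r) (Fin r) ℤ) (k m : ℕ) (hk : k < r) (Y : Fin r → ℤ)
    (hY : ∀ j, |Y j| ≤ ((2 ^ m : ℕ) : ℤ)) (j : Fin r) :
    (Matrix.vecMul Y ((A - 1) ^ k) j).natAbs ≤
      2 ^ m * ∑ k ∈ Finset.range r, ∑ c : Fin r, ∑ a : Fin r, (((A - 1) ^ k) a c).natAbs := by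
  have h1 : (Matrix.vecMul Y ((A - 1) ^ k) j).natAbs ≤
      ∑ a : Fin r, 2 ^ m * (((A - 1) ^ k) a j).natAbs := by
    have e : Matrix.vecMul Y ((A - 1) ^ k) j = ∑ a : Fin r, Y a * ((A - 1) ^ k) a j := by
      simp [Matrix.vecMul, dotProduct]
    rw [e]
    refine (Int.natAbs_sum_le _ _).trans (Finset.sum_le_sum ?_)
    intro a _
    rw [Int.natAbs_mul]
    apply Nat.mul_le_mul_right
    have h3 : ((Y a).natAbs : ℤ) ≤ ((2 ^ m : ℕ) : ℤ) := by rw [Int.natCast_natAbs]; exact hY a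
    exact_mod_cast h3
  rw [← Finset.mul_sum] at h1
  refine h1.trans (Nat.mul_le_mul_left _ ?_)
  calc ∑ a : Fin r, (((A - 1) ^ k) a j).natAbs
      ≤ ∑ c : Fin r, ∑ a : Fin r, (((A - 1) ^ k) a c).natAbs :=
        Finset.single_le_sum (f := fun c => ∑ a : Fin r, (((A - 1) ^ k) a c).natAbs)
          (fun _ _ => Nat.zero_le _) (Finset.mem_univ j)
    _ ≤ _ := Finset.single_le_sum
        (f := fun k => ∑ c : Fin r, ∑ a : Fin r, (((A - 1) ^ k) a c).natAbs)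
          (fun _ _ => Nat.zero_le _) (Finset.mem_range.2 hk)

theorem st_CNT2 : ST_CNT2 := by
  intro r A
  refine ⟨∑ k ∈ Finset.range r, ∑ c : Fin r, ∑ a : Fin r, (((A - 1) ^ k) a c).natAbs, ?_⟩
  intro i m k Z hZ hk S hS hY
  set b := ∑ k ∈ Finset.range r, ∑ c : Fin r, ∑ a : Fin r, (((A - 1) ^ k) a c).natAbs with hb
  obtain ⟨j, hj⟩ : ∃ j, Z j ≠ 0 := by
    by_contra h
    push Not at h
    exact hZ (funext h)
  rcases S.eq_empty_or_nonempty with rfl | ⟨p, hp⟩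
  · simp
  have hPB : ∀ q ∈ S, 2 ^ i < q ∧ q ≤ 2 ^ (i + 1) ∧ q.Prime := by
    intro q hq
    have := hS hq
    simp only [PB, mem_filter, mem_Ioc] at this
    exact ⟨this.1.1, this.1.2, this.2.1⟩
  have hdvd : ∏ q ∈ S, q ∣ (Z j).natAbs := by
    refine Finset.prod_primes_dvd _ (fun q hq => (hPB q hq).2.2.prime) ?_
    intro q hq
    obtain ⟨Y, -, hY1⟩ := hY q hq
    rw [← hY1]
    simp only [Pi.smul_apply, smul_eq_mul, Int.natAbs_mul, Int.natAbs_pow, Int.natAbs_natCast]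
    exact (dvd_pow_self q (Nat.succ_ne_zero k)).mul_right _
  have hpos : 0 < (Z j).natAbs := Int.natAbs_pos.2 hj
  have h1 : 2 ^ (i * S.card) ≤ (Z j).natAbs := by
    refine le_trans ?_ (Nat.le_of_dvd hpos hdvd)
    rw [pow_mul, ← Finset.prod_const]
    exact Finset.prod_le_prod' (fun q hq => (hPB q hq).1.le)
  have h2 : (Z j).natAbs ≤ 2 ^ ((i + 1) * r + m + b) := by
    obtain ⟨Y, hY2, hY1⟩ := hY p hp
    rw [← hY1]
    simp only [Pi.smul_apply, smul_eq_mul, Int.natAbs_mul, Int.natAbs_pow, Int.natAbs_natCast]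
    have e1 : p ^ (k + 1) ≤ 2 ^ ((i + 1) * r) := by
      calc p ^ (k + 1) ≤ (2 ^ (i + 1)) ^ (k + 1) := Nat.pow_le_pow_left (hPB p hp).2.1 _
        _ ≤ (2 ^ (i + 1)) ^ r := Nat.pow_le_pow_right (by positivity) (by omega)
        _ = 2 ^ ((i + 1) * r) := by rw [pow_mul]
    have e2 := cnt2_bd r A k m hk Y hY2 j
    rw [← hb] at e2
    have e3 : b ≤ 2 ^ b := Nat.lt_two_pow_self.le
    calc p ^ (k + 1) * (Matrix.vecMul Y ((A - 1) ^ k) j).natAbs
        ≤ 2 ^ ((i + 1) * r) * (2 ^ m * 2 ^ b) :=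
          Nat.mul_le_mul e1 (e2.trans (Nat.mul_le_mul_left _ e3))
      _ = 2 ^ ((i + 1) * r + m + b) := by rw [pow_add, pow_add]; ring
  have h3 := (Nat.pow_le_pow_iff_right (by norm_num)).1 (h1.trans h2)
  calc i * S.card ≤ (i + 1) * r + m + b := h3
    _ ≤ (i + 1) * (r + 1) + m + b := by
        have : (i + 1) * r ≤ (i + 1) * (r + 1) := Nat.mul_le_mul_left _ (by omega)
        omega

end Pool.Agent.Helper16.BZ
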